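import Pool.Agent.Lib.MP_e4ee3e_an.PB.Sets

/-!
The property `Spreads` when every marked point whose forward orbit accumulates at the fixed point is
totally ramified (adapted from L18).
-/

open MeasureTheory Filter Topology

namespace Pool.Agent.Lib.MP_e4ee3e_an

open Q1

/-- A disc which is entered only by the orbits of totally ramified marked points. -/
theorem acc_radius {P Q : Polynomial ℂ} {d : ℕ} (h : RatData P Q d) (a : ℂ)
    (htt : ∀ c ∈ marked P Q, (∀ U ∈ 𝓝 (a : OnePoint ℂ), ∃ n, 1 ≤ n ∧ (ratMap P Q)^[n] c ∈ U) →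
      ∀ z, ratMap P Q z = ratMap P Q c → z = c) :
    ∃ η : ℝ, 0 < η ∧ ∀ c ∈ marked P Q, ∀ n, 1 ≤ n → (ratMap P Q)^[n] c ∈ sdisc a η →
      ∀ z, ratMap P Q z = ratMap P Q c → z = c := by
  classical
  have h1 : ∀ c ∈ marked P Q, ∃ η : ℝ, 0 < η ∧ ∀ n, 1 ≤ n → (ratMap P Q)^[n] c ∈ sdisc a η →
      ∀ z, ratMap P Q z = ratMap P Q c → z = c := by
    intro c hc
    by_cases hacc : ∀ U ∈ 𝓝 (a : OnePoint ℂ), ∃ n, 1 ≤ n ∧ (ratMap P Q)^[n] c ∈ U
    · exact ⟨1, one_pos, fun _ _ _ => htt c hc hacc⟩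
    · push Not at hacc
      obtain ⟨U, hU, hU2⟩ := hacc
      have h2 : (fun z : ℂ => (z : OnePoint ℂ)) ⁻¹' U ∈ 𝓝 a :=
        OnePoint.continuous_coe.continuousAt.preimage_mem_nhds hU
      obtain ⟨δ, hδ, h3⟩ := Metric.mem_nhds_iff.1 h2
      refine ⟨δ, hδ, fun n hn hz => ?_⟩
      obtain ⟨x, hx, hxz⟩ := hz
      have h4 : (ratMap P Q)^[n] c ∈ U := by
        rw [← hxz]
        exact h3 hx
      exact absurd h4 (hU2 n hn)
  choose! η hη0 hη using h1
  have hfin := marked_finite h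
  by_cases hne : (hfin.toFinset.image η).Nonempty
  · refine ⟨(hfin.toFinset.image η).min' hne, ?_, ?_⟩
    · obtain ⟨c, hc, hc2⟩ := Finset.mem_image.1 ((hfin.toFinset.image η).min'_mem hne)
      rw [← hc2]
      exact hη0 c (hfin.mem_toFinset.1 hc)
    · intro c hc n hn hz
      refine hη c hc n hn ?_
      obtain ⟨x, hx, hxz⟩ := hz
      refine ⟨x, Metric.ball_subset_ball ?_ hx, hxz⟩
      exact Finset.min'_le _ _ (Finset.mem_image.2 ⟨c, hfin.mem_toFinset.2 hc, rfl⟩)
  · refine ⟨1, one_pos, fun c hc => ?_⟩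
    exact absurd ⟨η c, Finset.mem_image.2 ⟨c, hfin.mem_toFinset.2 hc, rfl⟩⟩ hne

theorem spreads_of_accumulating {P Q : Polynomial ℂ} {d : ℕ} (h : RatData P Q d)
    (a : ℂ) (hfa : ratMap P Q (a : OnePoint ℂ) = (a : OnePoint ℂ))
    (htt : ∀ c ∈ marked P Q, (∀ U ∈ 𝓝 (a : OnePoint ℂ), ∃ n, 1 ≤ n ∧ (ratMap P Q)^[n] c ∈ U) →
      ∀ z, ratMap P Q z = ratMap P Q c → z = c)
    (hav : ∀ n, AvoidN P Q n (a : OnePoint ℂ))
    (hle : ‖deriv (fun z => P.eval z / Q.eval z) a‖ ≤ 1)
    (hJ : ‖deriv (fun z => P.eval z / Q.eval z) a‖ = 1 → (a : OnePoint ℂ) ∈ julia (ratMap P Q)) :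
    Spreads P Q a := by
  have := onePoint_locallyConnected
  intro ε hε N
  obtain ⟨η₁, hη₁, h1'⟩ := l18_eta h a hfa hε N
  obtain ⟨η₀, hη₀, ht⟩ := acc_radius h a htt
  obtain ⟨η, hη, hηη₁, hηη₀⟩ : ∃ η : ℝ, 0 < η ∧ η ≤ η₁ ∧ η ≤ η₀ :=
    ⟨min η₁ η₀, lt_min hη₁ hη₀, min_le_left _ _, min_le_right _ _⟩
  have h1 : ∀ k, k ≤ N → ∀ z ∈ sdisc a η, (ratMap P Q)^[k] z ∈ sdisc a ε := by
    intro k hk z hz
    refine h1' k hk z ?_
    obtain ⟨x, hx, rfl⟩ := hz
    exact ⟨x, Metric.ball_subset_ball hηη₁ hx, rfl⟩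
  have hfix : ∀ k, (ratMap P Q)^[k] (a : OnePoint ℂ) = (a : OnePoint ℂ) := fun k =>
    Function.iterate_fixed hfa k
  have hc : Continuous (ratMap P Q) := ratMap_continuous h
  have hmem : ∀ k, ∀ ε' : ℝ, 0 < ε' → ((a : ℂ) : OnePoint ℂ) ∈ (ratMap P Q)^[k] ⁻¹' sdisc a ε' := by
    intro k ε' hε'
    rw [Set.mem_preimage, hfix]
    exact l18_mem a hε'
  have hcm : ∀ k, ∀ ε' : ℝ, 0 < ε' → ((a : ℂ) : OnePoint ℂ) ∈ compAt P Q a k ε' :=
    fun k ε' hε' => mem_connectedComponentIn (hmem k ε' hε')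
  have hopen : ∀ k ε', IsOpen (compAt P Q a k ε') := fun k ε' =>
    IsOpen.connectedComponentIn ((l18_sdisc_open a ε').preimage (hc.iterate k))
  have hpre : ∀ k ε', IsPreconnected (compAt P Q a k ε') := fun k ε' =>
    isPreconnected_connectedComponentIn
  have hsub : ∀ k ε', compAt P Q a k ε' ⊆ (ratMap P Q)^[k] ⁻¹' sdisc a ε' := fun k ε' =>
    connectedComponentIn_subset _ _
  obtain ⟨i, g, hg1, hg2, hg3, w, hw, c, hcm', hgc⟩ := exists_branch_hit_gen h a hfa hav hle hJ η hη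
  have htc : ∀ z, ratMap P Q z = ratMap P Q c → z = c := by
    refine ht c hcm' (i + 1) (Nat.le_add_left _ _) ?_
    rw [Function.iterate_succ_apply, hgc, hg3 w hw]
    exact ⟨w, Metric.ball_subset_ball hηη₀ hw, rfl⟩
  -- `f c` is in the component of level `i`
  have s1 : ratMap P Q c ∈ compAt P Q a i η := by
    have h2 : IsPreconnected ((fun z : ℂ => ((g z : ℂ) : OnePoint ℂ)) '' Metric.ball a η) :=
      (convex_ball a η).isPreconnected.image _
        (OnePoint.continuous_coe.comp_continuousOn hg1.continuousOn)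
    have h3 : (fun z : ℂ => ((g z : ℂ) : OnePoint ℂ)) '' Metric.ball a η ⊆ compAt P Q a i η := by
      apply h2.subset_connectedComponentIn
      · exact ⟨a, Metric.mem_ball_self hη, by show ((g a : ℂ) : OnePoint ℂ) = _; rw [hg2]⟩
      · rintro _ ⟨x, hx, rfl⟩
        show (ratMap P Q)^[i] ((g x : ℂ) : OnePoint ℂ) ∈ sdisc a η
        rw [hg3 x hx]
        exact ⟨x, hx, rfl⟩
    rw [hgc]
    exact h3 ⟨w, hw, rfl⟩
  -- `c` is in the component of level `i + 1`
  have s2 : c ∈ compAt P Q a (i + 1) η := by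
    have h2 : ratMap P Q ((a : ℂ) : OnePoint ℂ) ∈ compAt P Q a i η := by rw [hfa]; exact hcm i η hη
    have h3 := component_onto h (hopen i η) (hpre i η) h2
    rw [← h3] at s1
    obtain ⟨u, hu, hu2⟩ := s1
    have h4 : u = c := htc u hu2
    rw [← h4]
    refine IsPreconnected.subset_connectedComponentIn (isPreconnected_connectedComponentIn
      (F := ratMap P Q ⁻¹' compAt P Q a i η) (x := ((a : ℂ) : OnePoint ℂ)))
      (mem_connectedComponentIn h2) ?_ hu
    intro y hy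
    have h5 : ratMap P Q y ∈ compAt P Q a i η :=
      connectedComponentIn_subset (ratMap P Q ⁻¹' compAt P Q a i η) _ hy
    have h6 := hsub i η h5
    rw [Set.mem_preimage, Function.iterate_succ_apply]
    exact h6
  -- and in all components of level `i + 1 + k` for `ε`
  have s3 : ∀ k, k ≤ N → c ∈ compAt P Q a (i + 1 + k) ε := by
    intro k hk
    refine IsPreconnected.subset_connectedComponentIn (hpre (i + 1) η) (hcm (i + 1) η hη) ?_ s2
    intro y hy
    have h2 := h1 k hk _ (hsub (i + 1) η hy)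
    rw [Set.mem_preimage, Nat.add_comm (i + 1) k, Function.iterate_add_apply]
    exact h2
  -- step (3)
  have s4 : ∀ m, c ∈ compAt P Q a (m + 1) ε → ∀ z, ratMap P Q z ∈ compAt P Q a m ε →
      z ∈ compAt P Q a (m + 1) ε := by
    intro m hm z hz
    have h2 : ratMap P Q c ∈ compAt P Q a m ε := by
      have h3 : ratMap P Q '' compAt P Q a (m + 1) ε ⊆ compAt P Q a m ε := by
        refine IsPreconnected.subset_connectedComponentIn ((hpre (m + 1) ε).image _ hc.continuousOn)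
          ⟨_, hcm (m + 1) ε hε, hfa⟩ ?_
        rintro _ ⟨y, hy, rfl⟩
        have h4 := hsub (m + 1) ε hy
        rw [Set.mem_preimage, Function.iterate_succ_apply] at h4
        exact h4
      exact h3 ⟨c, hm, rfl⟩
    have h3 := component_onto h (hopen m ε) (hpre m ε) hz
    rw [← h3] at h2
    obtain ⟨u, hu, hu2⟩ := h2
    have h4 : u = c := htc u hu2
    rw [h4] at hu
    have h5 : connectedComponentIn (ratMap P Q ⁻¹' compAt P Q a m ε) z ⊆ compAt P Q a (m + 1) ε := by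
      have h6 : compAt P Q a (m + 1) ε =
          connectedComponentIn ((ratMap P Q)^[m + 1] ⁻¹' sdisc a ε) c := connectedComponentIn_eq hm
      rw [h6]
      refine IsPreconnected.subset_connectedComponentIn isPreconnected_connectedComponentIn hu ?_
      intro y hy
      have h7 : ratMap P Q y ∈ compAt P Q a m ε :=
        connectedComponentIn_subset (ratMap P Q ⁻¹' compAt P Q a m ε) _ hy
      have h8 := hsub m ε h7
      rw [Set.mem_preimage, Function.iterate_succ_apply]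
      exact h8
    exact h5 (mem_connectedComponentIn hz)
  refine ⟨i + 1 + N, by omega, fun z hz => ?_⟩
  have s5 : ∀ k, k ≤ N → (ratMap P Q)^[N - k] z ∈ compAt P Q a (i + 1 + k) ε := by
    intro k
    induction k with
    | zero =>
      intro _
      rw [Nat.sub_zero, hz]
      exact hcm _ ε hε
    | succ k ih =>
      intro hk
      have h2 := ih (by omega)
      have h3 : N - k = (N - (k + 1)) + 1 := by omega
      rw [h3, Function.iterate_succ_apply'] at h2
      exact s4 (i + 1 + k) (s3 (k + 1) hk) _ h2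
  have h2 := s5 N le_rfl
  rw [Nat.sub_self] at h2
  exact h2

end Pool.Agent.Lib.MP_e4ee3e_an
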