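import Pool.Agent.Lib.MP_e4ee3e_an.PB.Acc

/-!
Question Q1 for all rational maps with a fixed point such that every critical point whose forward orbit
accumulates at the fixed point is alone in its fibre.
-/

open MeasureTheory Filter Topology

namespace Pool.Agent.Lib.MP_e4ee3e_an

open Q1

theorem accumulating_main {P Q : Polynomial ℂ} {d : ℕ} (h : RatData P Q d) (a : ℂ)
    (hacc : ∀ c, IsCritPt (ratMap P Q) c →
      (∀ U ∈ 𝓝 (a : OnePoint ℂ), ∃ n, 1 ≤ n ∧ (ratMap P Q)^[n] c ∈ U) →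
        ∀ z, ratMap P Q z = ratMap P Q c → z = c)
    (hfa : ratMap P Q (a : OnePoint ℂ) = (a : OnePoint ℂ))
    (hcrit : ∀ c, IsCritPt (ratMap P Q) c → ∀ n : ℕ, 1 ≤ n →
      (ratMap P Q)^[n] c ≠ (a : OnePoint ℂ))
    (hle : ‖deriv (fun z => P.eval z / Q.eval z) a‖ ≤ 1)
    (hJ : ‖deriv (fun z => P.eval z / Q.eval z) a‖ = 1 → (a : OnePoint ℂ) ∈ julia (ratMap P Q))
    [MeasurableSpace (OnePoint ℂ)] [BorelSpace (OnePoint ℂ)] :
    Codes (ratMap P Q) d (a : OnePoint ℂ) (julia (ratMap P Q)) := by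
  obtain ⟨b, hb⟩ := exists_wronskian_zero h
  have hbc : IsCritPt (ratMap P Q) (b : OnePoint ℂ) := isCritPt_of_wronskian h hb
  have hab : a ≠ b := by
    rintro rfl
    exact hcrit _ hbc 1 le_rfl hfa
  obtain ⟨P', Q', hR', hconj, hev⟩ := exists_conj_explicit h b
  set M := mo_homeo b with hM
  set w₀ : ℂ := (a - b)⁻¹ with hw₀
  have hMa : M (a : OnePoint ℂ) = (w₀ : OnePoint ℂ) := n08_homeo_coe hab
  have hMb : M (b : OnePoint ℂ) = OnePoint.infty := n08_homeo_self b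
  have hf'a : ratMap P' Q' (w₀ : OnePoint ℂ) = (w₀ : OnePoint ℂ) := by
    rw [← hMa, hconj, hfa]
  have hmk : ∀ c' ∈ marked P' Q', ∃ c, IsCritPt (ratMap P Q) c ∧ M c = c' := by
    rintro c' (hc' | ⟨y, hy, hy0⟩)
    · exact ⟨(b : OnePoint ℂ), hbc, by rw [hMb, hc']⟩
    · have h1 : IsCritPt (ratMap P' Q') c' := by
        rw [hy]
        exact isCritPt_of_wronskian hR' hy0
      refine ⟨M.symm c', ?_, M.apply_symm_apply c'⟩
      rw [← isCritPt_conj M hconj, M.apply_symm_apply]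
      exact h1
  have hacc' : ∀ c' ∈ marked P' Q',
      (∀ U ∈ 𝓝 (w₀ : OnePoint ℂ), ∃ n, 1 ≤ n ∧ (ratMap P' Q')^[n] c' ∈ U) →
        ∀ z', ratMap P' Q' z' = ratMap P' Q' c' → z' = c' := by
    intro c' hc' hac z' hz'
    obtain ⟨c, hc, rfl⟩ := hmk c' hc'
    obtain ⟨z, rfl⟩ := M.surjective z'
    rw [hconj, hconj] at hz'
    rw [hacc c hc (fun U hU => ?_) z (M.injective hz')]
    have h1 : M.symm ⁻¹' U ∈ 𝓝 (w₀ : OnePoint ℂ) := by
      apply M.symm.continuous.continuousAt.preimage_mem_nhds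
      rw [← hMa, M.symm_apply_apply]
      exact hU
    obtain ⟨n, hn, h2⟩ := hac _ h1
    refine ⟨n, hn, ?_⟩
    rw [Set.mem_preimage, iterate_conj M hconj, M.symm_apply_apply] at h2
    exact h2
  have hav' : ∀ n, AvoidN P' Q' n (w₀ : OnePoint ℂ) := by
    intro n k hk _ c' hc' he
    obtain ⟨c, hc, rfl⟩ := hmk c' hc'
    rw [iterate_conj M hconj, ← hMa] at he
    exact hcrit c hc k hk (M.injective he)
  have hQa : Q.eval a ≠ 0 := by
    intro h0
    have h1 : ratMap P Q (a : OnePoint ℂ) = ratio (P.eval a) (Q.eval a) := rfl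
    rw [h1, ratio, if_pos h0] at hfa
    exact OnePoint.infty_ne_coe a hfa
  have hfa0 : P.eval a / Q.eval a = a := by
    have h1 : ratMap P Q (a : OnePoint ℂ) = ratio (P.eval a) (Q.eval a) := rfl
    rw [h1, ratio, if_neg hQa] at hfa
    exact OnePoint.coe_injective hfa
  have hder := n08_deriv (P' := P') (Q' := Q') hab hQa hfa0 hev
  have hjul : julia (ratMap P' Q') = M '' julia (ratMap P Q) := julia_conj M hconj
  have hs := spreads_of_accumulating hR' w₀ hf'a hacc' hav' (by rw [hder]; exact hle) (by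
    rw [hder]
    intro h1
    rw [hjul]
    exact ⟨(a : OnePoint ℂ), hJ h1, hMa⟩)
  have hcodes := spread_codes hR' w₀ hf'a hav' hs
  rw [hjul, ← hMa] at hcodes
  exact codes_of_conj M hconj hcodes

end Pool.Agent.Lib.MP_e4ee3e_an
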