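import Pool.Agent.Lib.MP_e4ee3e_an.PB.Sets

/-!
Question Q1 for all rational maps with a completely invariant domain attracted to a fixed point, and
for all fixed points with connected preimages of small neighbourhoods.
-/

open MeasureTheory Filter Topology

namespace Pool.Agent.Lib.MP_e4ee3e_an

open Q1

theorem pb_main {P Q : Polynomial ℂ} {d : ℕ} (h : RatData P Q d) (a : OnePoint ℂ)
    (hfa : ratMap P Q a = a)
    (hcrit : ∀ c, IsCritPt (ratMap P Q) c → ∀ n : ℕ, 1 ≤ n → (ratMap P Q)^[n] c ≠ a)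
    (hS : Collects (ratMap P Q) a)
    [MeasurableSpace (OnePoint ℂ)] [BorelSpace (OnePoint ℂ)] :
    Codes (ratMap P Q) d a (julia (ratMap P Q)) := by
  obtain ⟨b, hb⟩ := exists_wronskian_zero h
  have hbc : IsCritPt (ratMap P Q) (b : OnePoint ℂ) := isCritPt_of_wronskian h hb
  have hab : a ≠ (b : OnePoint ℂ) := by
    rintro rfl
    exact hcrit _ hbc 1 le_rfl hfa
  obtain ⟨P', Q', hR', hconj, -⟩ := exists_conj_explicit h b
  set M := mo_homeo b with hM
  have hMb : M (b : OnePoint ℂ) = OnePoint.infty := n08_homeo_self b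
  have hMa : M a ≠ OnePoint.infty := by
    intro h0
    rw [← hMb] at h0
    exact hab (M.injective h0)
  obtain ⟨w₀, hw₀⟩ := l01_coe hMa
  have hf'a : ratMap P' Q' (w₀ : OnePoint ℂ) = (w₀ : OnePoint ℂ) := by
    rw [hw₀, hconj, hfa]
  -- marked points of the conjugate are critical
  have hmk : ∀ c' ∈ marked P' Q', ∃ c, IsCritPt (ratMap P Q) c ∧ M c = c' := by
    rintro c' (hc' | ⟨y, hy, hy0⟩)
    · exact ⟨(b : OnePoint ℂ), hbc, by rw [hMb, hc']⟩
    · have h1 : IsCritPt (ratMap P' Q') c' := by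
        rw [hy]
        exact isCritPt_of_wronskian hR' hy0
      refine ⟨M.symm c', ?_, M.apply_symm_apply c'⟩
      rw [← isCritPt_conj M hconj, M.apply_symm_apply]
      exact h1
  have hav' : ∀ n, AvoidN P' Q' n (w₀ : OnePoint ℂ) := by
    intro n k hk _ c' hc' he
    obtain ⟨c, hc, rfl⟩ := hmk c' hc'
    rw [iterate_conj M hconj, hw₀] at he
    exact hcrit c hc k hk (M.injective he)
  have hjul : julia (ratMap P' Q') = M '' julia (ratMap P Q) := julia_conj M hconj
  have hs : Spreads P' Q' w₀ := by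
    refine spreads_of_collects hR' w₀ hf'a ?_
    rw [hw₀]
    exact collects_conj M hconj hS
  have hcodes := spread_codes hR' w₀ hf'a hav' hs
  rw [hjul, hw₀] at hcodes
  exact codes_of_conj M hconj hcodes

end Pool.Agent.Lib.MP_e4ee3e_an
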