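import Pool.Agent.Lib.MP_e4ee3e_an.N09

/-!
A fixed point `a` such that for every neighbourhood `U` of `a` some connected set `K` which contains
`a`, a point `z₀` and all preimages of `z₀` is mapped into `U` by some iterate. Then all preimages of
`a` of a given order lie in one component of the preimage of `U` under some iterate (`Spreads`).
Example: completely invariant domains which are attracted to `a`.
-/

open MeasureTheory Filter Topology

namespace Pool.Agent.Lib.MP_e4ee3e_an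

open Q1

/-- For every neighbourhood `U` of `a` there are a connected set `K` containing `a` and a point
`z₀ ∈ K` all whose preimages are in `K`, such that some iterate maps `K` into `U`. -/
def Collects (f : OnePoint ℂ → OnePoint ℂ) (a : OnePoint ℂ) : Prop :=
  ∀ U ∈ 𝓝 a, ∃ (n : ℕ) (K : Set (OnePoint ℂ)), IsPreconnected K ∧ a ∈ K ∧
    (∃ z₀ ∈ K, ∀ z, f z = z₀ → z ∈ K) ∧ ∀ z ∈ K, f^[n] z ∈ U

theorem collects_conj {f f' : OnePoint ℂ → OnePoint ℂ} (M : OnePoint ℂ ≃ₜ OnePoint ℂ)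
    (hM : ∀ x, f' (M x) = M (f x)) {a : OnePoint ℂ} (h : Collects f a) : Collects f' (M a) := by
  intro U hU
  obtain ⟨n, K, hK, h1, ⟨z₀, h2, h3⟩, h4⟩ :=
    h (M ⁻¹' U) (M.continuous.continuousAt.preimage_mem_nhds hU)
  refine ⟨n, M '' K, hK.image _ M.continuous.continuousOn, ⟨a, h1, rfl⟩,
    ⟨M z₀, ⟨z₀, h2, rfl⟩, ?_⟩, ?_⟩
  · intro z hz
    obtain ⟨x, rfl⟩ := M.surjective z
    rw [hM] at hz
    exact ⟨x, h3 x (M.injective hz), rfl⟩
  · rintro _ ⟨x, hx, rfl⟩
    rw [iterate_conj M hM]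
    exact h4 x hx

/-- All small neighbourhoods of a fixed point stay in `U` for `N` steps. -/
theorem nhds_steps {f : OnePoint ℂ → OnePoint ℂ} (hf : Continuous f) {a : OnePoint ℂ}
    (hfa : f a = a) {U : Set (OnePoint ℂ)} (hU : U ∈ 𝓝 a) (N : ℕ) :
    ∃ U' ∈ 𝓝 a, ∀ k, k ≤ N → ∀ z ∈ U', f^[k] z ∈ U := by
  induction N with
  | zero => exact ⟨U, hU, fun k hk z hz => by rw [Nat.le_zero.1 hk]; exact hz⟩
  | succ N ih =>
    obtain ⟨U', hU', h1⟩ := ih
    have h2 : f^[N + 1] ⁻¹' U ∈ 𝓝 a := by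
      apply (hf.iterate (N + 1)).continuousAt.preimage_mem_nhds
      rw [Function.iterate_fixed hfa]
      exact hU
    refine ⟨U' ∩ f^[N + 1] ⁻¹' U, Filter.inter_mem hU' h2, fun k hk z hz => ?_⟩
    rcases Nat.lt_or_ge k (N + 1) with h3 | h3
    · exact h1 k (by omega) z hz.1
    · have : k = N + 1 := by omega
      rw [this]
      exact hz.2

/-- If `V` is open and connected and contains `f^j (K)` for `j ≤ N`, where `K` is connected and
contains a point with all its preimages, then the preimage of `V` of order `N` is connected. -/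
theorem preimage_connected {P Q : Polynomial ℂ} {d : ℕ} (h : RatData P Q d)
    {V K : Set (OnePoint ℂ)} (hVo : IsOpen V) (hVp : IsPreconnected V) (hK : IsPreconnected K)
    {z₀ : OnePoint ℂ} (hz₀ : z₀ ∈ K) (hz₀K : ∀ z, ratMap P Q z = z₀ → z ∈ K) (N : ℕ)
    (hKV : ∀ j, j ≤ N → ∀ z ∈ K, (ratMap P Q)^[j] z ∈ V) :
    ∀ j, j ≤ N → IsPreconnected ((ratMap P Q)^[j] ⁻¹' V) := by
  have := onePoint_locallyConnected
  have hcont : Continuous (ratMap P Q) := ratMap_continuous h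
  intro j
  induction j with
  | zero => intro _; exact hVp
  | succ j ih =>
    intro hj
    have ihj := ih (by omega)
    have hWo : IsOpen ((ratMap P Q)^[j] ⁻¹' V) := hVo.preimage (hcont.iterate j)
    have hW : (ratMap P Q)^[j + 1] ⁻¹' V = ratMap P Q ⁻¹' ((ratMap P Q)^[j] ⁻¹' V) := by
      ext z
      rw [Set.mem_preimage, Set.mem_preimage, Set.mem_preimage, Function.iterate_succ_apply]
    have hKW : K ⊆ (ratMap P Q)^[j + 1] ⁻¹' V := fun z hz => hKV (j + 1) hj z hz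
    have hzW : z₀ ∈ (ratMap P Q)^[j] ⁻¹' V := hKV j (by omega) z₀ hz₀
    have h3 : (ratMap P Q)^[j + 1] ⁻¹' V = ⋃₀ {S | ∃ y ∈ (ratMap P Q)^[j + 1] ⁻¹' V,
        S = K ∪ connectedComponentIn ((ratMap P Q)^[j + 1] ⁻¹' V) y} := by
      apply Set.Subset.antisymm
      · intro y hy
        exact ⟨_, ⟨y, hy, rfl⟩, Or.inr (mem_connectedComponentIn hy)⟩
      · rintro x ⟨_, ⟨y, hy, rfl⟩, hx | hx⟩
        · exact hKW hx
        · exact connectedComponentIn_subset _ _ hx
    rw [h3]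
    refine isPreconnected_sUnion z₀ _ ?_ ?_
    · rintro _ ⟨y, hy, rfl⟩
      exact Or.inl hz₀
    · rintro _ ⟨y, hy, rfl⟩
      have hy' : ratMap P Q y ∈ (ratMap P Q)^[j] ⁻¹' V := by
        rw [hW] at hy
        exact hy
      have h4 := component_onto h hWo ihj hy'
      rw [← hW] at h4
      have h5 : z₀ ∈ ratMap P Q '' connectedComponentIn ((ratMap P Q)^[j + 1] ⁻¹' V) y := by
        rw [h4]
        exact hzW
      obtain ⟨x, hx, hx2⟩ := h5
      exact IsPreconnected.union x (hz₀K x hx2) hx hK isPreconnected_connectedComponentIn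

theorem spreads_of_collects {P Q : Polynomial ℂ} {d : ℕ} (h : RatData P Q d) (a : ℂ)
    (hfa : ratMap P Q (a : OnePoint ℂ) = (a : OnePoint ℂ))
    (hS : Collects (ratMap P Q) (a : OnePoint ℂ)) : Spreads P Q a := by
  have := onePoint_locallyConnected
  intro ε hε N
  have hcont : Continuous (ratMap P Q) := ratMap_continuous h
  have hfix : ∀ k, (ratMap P Q)^[k] (a : OnePoint ℂ) = (a : OnePoint ℂ) :=
    fun k => Function.iterate_fixed hfa k
  obtain ⟨U', hU', h1⟩ := nhds_steps hcont hfa ((l18_sdisc_open a ε).mem_nhds (l18_mem a hε)) N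
  obtain ⟨n, K, hK, haK, ⟨z₀, hz₀, hz₀K⟩, hKU⟩ := hS U' hU'
  have hnK : ∀ j, j ≤ N → ∀ z ∈ K, (ratMap P Q)^[n] ((ratMap P Q)^[j] z) ∈ sdisc a ε := by
    intro j hj z hz
    rw [← Function.iterate_add_apply, Nat.add_comm, Function.iterate_add_apply]
    exact h1 j hj _ (hKU z hz)
  set V := compAt P Q a n ε with hV
  have hVo : IsOpen V := ((l18_sdisc_open a ε).preimage (hcont.iterate n)).connectedComponentIn
  have hVp : IsPreconnected V := isPreconnected_connectedComponentIn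
  have haV : (a : OnePoint ℂ) ∈ V := by
    refine mem_connectedComponentIn ?_
    rw [Set.mem_preimage, hfix]
    exact l18_mem a hε
  have hKV : ∀ j, j ≤ N → ∀ z ∈ K, (ratMap P Q)^[j] z ∈ V := by
    intro j hj z hz
    have h2 : (ratMap P Q)^[j] '' K ⊆ V := by
      refine (hK.image _ (hcont.iterate j).continuousOn).subset_connectedComponentIn
        ⟨a, haK, hfix j⟩ ?_
      rintro _ ⟨x, hx, rfl⟩
      exact hnK j hj x hx
    exact h2 ⟨z, hz, rfl⟩
  have hpre := preimage_connected h hVo hVp hK hz₀ hz₀K N hKV N le_rfl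
  refine ⟨n + N, Nat.le_add_left _ _, fun z hz => ?_⟩
  refine hpre.subset_connectedComponentIn ?_ ?_ ?_
  · rw [Set.mem_preimage, hfix]
    exact haV
  · intro x hx
    have h3 : (ratMap P Q)^[N] x ∈ (ratMap P Q)^[n] ⁻¹' sdisc a ε := connectedComponentIn_subset _ _ hx
    rw [Set.mem_preimage, Function.iterate_add_apply]
    exact h3
  · rw [Set.mem_preimage, hz]
    exact haV

/-- A nonempty open set of the sphere is not countable. -/
theorem exists_mem_not_mem {O S : Set (OnePoint ℂ)} (hO : IsOpen O) (hn : O.Nonempty)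
    (hS : S.Countable) : ∃ z ∈ O, z ∉ S := by
  have hd : DenseRange (fun z : ℂ => (z : OnePoint ℂ)) := OnePoint.denseRange_coe
  obtain ⟨_, hx, x, rfl⟩ := hd.inter_open_nonempty O hO hn
  have hO' : IsOpen ((fun z : ℂ => (z : OnePoint ℂ)) ⁻¹' O) := hO.preimage OnePoint.continuous_coe
  have hS' : ((fun z : ℂ => (z : OnePoint ℂ)) ⁻¹' S).Countable :=
    hS.preimage_of_injOn OnePoint.coe_injective.injOn
  obtain ⟨y, hy1, hy2⟩ := (hS'.dense_compl ℂ).inter_open_nonempty _ hO' ⟨x, hx⟩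
  exact ⟨y, hy1, hy2⟩

/-- Uniform convergence on compact subsets. -/
theorem uniform_of_julia {f : OnePoint ℂ → OnePoint ℂ} {a : OnePoint ℂ} {A : Set (OnePoint ℂ)}
    (hconv : ∀ z ∈ A, Tendsto (fun n => f^[n] z) atTop (𝓝 a)) (hJ : A ∩ julia f = ∅)
    {K : Set (OnePoint ℂ)} (hK : IsCompact K) (hKA : K ⊆ A) {U : Set (OnePoint ℂ)} (hU : U ∈ 𝓝 a) :
    ∃ m : ℕ, ∀ n, m ≤ n → ∀ z ∈ K, f^[n] z ∈ U := by
  let _ := chMetric
  have hd : ∀ x y : OnePoint ℂ, dist x y = chd x y := fun _ _ => rfl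
  obtain ⟨ε, hε, hεU⟩ := Metric.mem_nhds_iff.1 hU
  refine hK.induction_on (p := fun S => ∃ m : ℕ, ∀ n, m ≤ n → ∀ z ∈ S, f^[n] z ∈ U) ?_ ?_ ?_ ?_
  · exact ⟨0, fun _ _ z hz => absurd hz (Set.notMem_empty z)⟩
  · rintro S T hST ⟨m, hm⟩
    exact ⟨m, fun n hn z hz => hm n hn z (hST hz)⟩
  · rintro S T ⟨m, hm⟩ ⟨m', hm'⟩
    refine ⟨max m m', fun n hn z hz => ?_⟩
    rcases hz with hz | hz
    · exact hm n ((le_max_left _ _).trans hn) z hz
    · exact hm' n ((le_max_right _ _).trans hn) z hz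
  · intro x hx
    have hxJ : x ∉ julia f := fun h => by
      have : x ∈ A ∩ julia f := ⟨hKA hx, h⟩
      rw [hJ] at this
      exact this
    obtain ⟨W, hW, hW2⟩ := not_not.1 hxJ
    obtain ⟨V, hV, hV2⟩ := hW2 x (mem_of_mem_nhds hW) (ε / 2) (by positivity)
    obtain ⟨m, hm⟩ := Filter.eventually_atTop.1 ((hconv x (hKA hx)).eventually (Metric.ball_mem_nhds a
      (show 0 < ε / 2 by positivity)))
    refine ⟨V, mem_nhdsWithin_of_mem_nhds hV, m, fun n hn z hz => hεU ?_⟩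
    have h1 := hm n hn
    have h2 := hV2 z hz n
    rw [← hd] at h2
    replace h1 : dist (f^[n] x) a < ε / 2 := h1
    rw [Metric.mem_ball]
    have h3 := dist_triangle (f^[n] z) (f^[n] x) a
    linarith

/-- Open sets of attracted points whose components return to themselves, and which contain some point
with all its preimages. -/
theorem collects_of_domains {P Q : Polynomial ℂ} {d : ℕ} (h : RatData P Q d)
    (a : OnePoint ℂ) (hfa : ratMap P Q a = a) {A : Set (OnePoint ℂ)} (hAo : IsOpen A)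
    (hconv : ∀ z ∈ A, Tendsto (fun n => (ratMap P Q)^[n] z) atTop (𝓝 a))
    (hJ : A ∩ julia (ratMap P Q) = ∅)
    (hret : ∀ z ∈ A, ∃ q, 1 ≤ q ∧ ∃ x ∈ connectedComponentIn A z,
      (ratMap P Q)^[q] x ∈ connectedComponentIn A z)
    (hpt : ∃ z₀ ∈ A, ∀ z, ratMap P Q z = z₀ → z ∈ A) : Collects (ratMap P Q) a := by
  have := onePoint_locallyConnected
  intro U hU
  have hcont : Continuous (ratMap P Q) := ratMap_continuous h
  have hfix : ∀ k, (ratMap P Q)^[k] a = a := fun k => Function.iterate_fixed hfa k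
  -- every point of `A` is joined to `a`
  have hjoin : ∀ y ∈ A, y ≠ OnePoint.infty → ∃ (K : Set (OnePoint ℂ)) (m : ℕ), IsPreconnected K ∧
      a ∈ K ∧ y ∈ K ∧ ∀ n, m ≤ n → ∀ z ∈ K, (ratMap P Q)^[n] z ∈ U := by
    intro y hy hyi
    obtain ⟨q, hq, x₀, hx₀, hfx₀⟩ := hret y hy
    have hCo : IsOpen (connectedComponentIn A y) := hAo.connectedComponentIn
    have hCp : IsPreconnected (connectedComponentIn A y) := isPreconnected_connectedComponentIn
    have hCA : connectedComponentIn A y ⊆ A := connectedComponentIn_subset _ _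
    have hyC : y ∈ connectedComponentIn A y := mem_connectedComponentIn hy
    obtain ⟨x, ⟨hx1, hx2⟩, hxS⟩ := exists_mem_not_mem
      (hCo.inter (hCo.preimage (hcont.iterate q))) ⟨x₀, hx₀, hfx₀⟩
      ((Set.countable_singleton OnePoint.infty).union
        (ratMap_iter_fiber_finite h q OnePoint.infty).countable)
    have hx3 : x ≠ OnePoint.infty := fun h0 => hxS (Or.inl h0)
    have hx4 : (ratMap P Q)^[q] x ≠ OnePoint.infty := fun h0 => hxS (Or.inr h0)
    obtain ⟨κ, hκ0, hκ1, hκ⟩ := exists_path_avoid_sphere hCo hCp {OnePoint.infty}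
      (Set.countable_singleton _) rfl (x := x) (y := (ratMap P Q)^[q] x) ⟨hx1, hx3⟩ ⟨hx2, hx4⟩
    obtain ⟨π, hπ0, hπ1, hπ⟩ := exists_path_avoid_sphere hCo hCp {OnePoint.infty}
      (Set.countable_singleton _) rfl (x := y) (y := x) ⟨hyC, hyi⟩ ⟨hx1, hx3⟩
    have hκA : Set.range κ ⊆ A := by
      rintro _ ⟨t, rfl⟩
      exact hCA (hκ t).1
    have hπA : Set.range π ⊆ A := by
      rintro _ ⟨t, rfl⟩
      exact hCA (hπ t).1
    obtain ⟨m₁, hm₁⟩ := uniform_of_julia hconv hJ (isCompact_range κ.continuous) hκA hU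
    obtain ⟨m₀, hm₀⟩ := uniform_of_julia hconv hJ (isCompact_range π.continuous) hπA hU
    set R : Set (OnePoint ℂ) := insert a (⋃ k : ℕ, (ratMap P Q)^[q * k] '' Set.range κ) with hR
    have hRp : IsPreconnected R := by
      have h1 : IsPreconnected (⋃ k : ℕ, (ratMap P Q)^[q * k] '' Set.range κ) := by
        refine IsPreconnected.iUnion_of_chain (fun k => ?_) (fun k => ?_)
        · exact (isPreconnected_range κ.continuous).image _ (hcont.iterate _).continuousOn
        · refine ⟨(ratMap P Q)^[q * (k + 1)] x, ?_, ?_⟩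
          · refine ⟨κ 1, ⟨1, rfl⟩, ?_⟩
            rw [hκ1, ← Function.iterate_add_apply, mul_add, mul_one]
          · exact ⟨κ 0, ⟨0, rfl⟩, by rw [hκ0]; rfl⟩
      refine h1.subset_closure (Set.subset_insert _ _) ?_
      refine Set.insert_subset ?_ subset_closure
      have ht : Tendsto (fun k : ℕ => q * k) atTop atTop :=
        Filter.tendsto_atTop_mono (fun k => Nat.le_mul_of_pos_left k hq) tendsto_id
      refine mem_closure_of_tendsto ((hconv x (hCA hx1)).comp ht)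
        (Filter.Eventually.of_forall fun k => ?_)
      exact Set.mem_iUnion.2 ⟨k, κ 0, ⟨0, rfl⟩, by rw [hκ0]; rfl⟩
    have hxR : x ∈ R :=
      Set.mem_insert_of_mem _ (Set.mem_iUnion.2 ⟨0, κ 0, ⟨0, rfl⟩, by rw [hκ0]; rfl⟩)
    refine ⟨Set.range π ∪ R, max m₁ m₀, IsPreconnected.union x ⟨1, hπ1⟩ hxR
      (isPreconnected_range π.continuous) hRp, Or.inr (Set.mem_insert _ _), Or.inl ⟨0, hπ0⟩, ?_⟩
    intro n hn z hz
    rcases hz with hz | hz | hz
    · exact hm₀ _ ((le_max_right m₁ m₀).trans hn) z hz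
    · rw [hz, hfix]
      exact mem_of_mem_nhds hU
    · obtain ⟨k, hk⟩ := Set.mem_iUnion.1 hz
      obtain ⟨x', hx', rfl⟩ := hk
      rw [← Function.iterate_add_apply]
      exact hm₁ _ (((le_max_left m₁ m₀).trans hn).trans (Nat.le_add_right _ _)) x' hx'
  -- a good base point
  have hO : IsOpen (A \ ratMap P Q '' Aᶜ) :=
    hAo.sdiff (hcont.isClosedMap _ hAo.isClosed_compl)
  obtain ⟨z₀, ⟨hz₀, hz₀'⟩, hz₀S⟩ := exists_mem_not_mem hO (by
    obtain ⟨z, hz, hz2⟩ := hpt
    refine ⟨z, hz, ?_⟩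
    rintro ⟨x, hx, hxz⟩
    exact hx (hz2 x hxz)) ((Set.countable_singleton OnePoint.infty).union
      (Set.countable_singleton (ratMap P Q OnePoint.infty)))
  have hz1 : z₀ ≠ OnePoint.infty := fun h0 => hz₀S (Or.inl h0)
  have hz2 : z₀ ≠ ratMap P Q OnePoint.infty := fun h0 => hz₀S (Or.inr h0)
  have hfib : ∀ x, ratMap P Q x = z₀ → x ∈ A ∧ x ≠ OnePoint.infty := by
    intro x hx
    constructor
    · by_contra hxA
      exact hz₀' ⟨x, hxA, hx⟩
    · rintro rfl
      exact hz2 hx.symm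
  have hF : (insert z₀ {x | ratMap P Q x = z₀}).Finite := by
    have h1 : {x | ratMap P Q x = z₀}.Finite := ratMap_iter_fiber_finite h 1 z₀
    exact h1.insert z₀
  have hFA : ∀ y ∈ insert z₀ {x | ratMap P Q x = z₀}, y ∈ A ∧ y ≠ OnePoint.infty := by
    rintro y (hy | hy)
    · rw [hy]
      exact ⟨hz₀, hz1⟩
    · exact hfib y hy
  have hall : ∀ y ∈ insert z₀ {x | ratMap P Q x = z₀}, ∃ (K : Set (OnePoint ℂ)) (m : ℕ),
      IsPreconnected K ∧ a ∈ K ∧ y ∈ K ∧ ∀ n, m ≤ n → ∀ z ∈ K, (ratMap P Q)^[n] z ∈ U :=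
    fun y hy => hjoin y (hFA y hy).1 (hFA y hy).2
  choose! K m hKp hKa hKy hKU using hall
  refine ⟨hF.toFinset.sup m, ⋃₀ {S | ∃ y ∈ insert z₀ {x | ratMap P Q x = z₀}, S = K y}, ?_, ?_,
    ⟨z₀, ?_, ?_⟩, ?_⟩
  · refine isPreconnected_sUnion a _ ?_ ?_
    · rintro _ ⟨y, hy, rfl⟩
      exact hKa y hy
    · rintro _ ⟨y, hy, rfl⟩
      exact hKp y hy
  · exact ⟨_, ⟨z₀, Set.mem_insert _ _, rfl⟩, hKa z₀ (Set.mem_insert _ _)⟩
  · exact ⟨_, ⟨z₀, Set.mem_insert _ _, rfl⟩, hKy z₀ (Set.mem_insert _ _)⟩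
  · intro z hz
    exact ⟨_, ⟨z, Set.mem_insert_of_mem _ hz, rfl⟩, hKy z (Set.mem_insert_of_mem _ hz)⟩
  · rintro z ⟨_, ⟨y, hy, rfl⟩, hz⟩
    exact hKU y hy _ (Finset.le_sup (hF.mem_toFinset.2 hy)) z hz

end Pool.Agent.Lib.MP_e4ee3e_an
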